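import Pool.Agent.N194.VS.Key
import Pool.Agent.N169.VS.Easy

/-! All fibrations of a variety which is uniruled or of general type. -/

set_option autoImplicit false

open Pool.Agent.W602.GT
open Pool.Agent.W619.PQ (IsUniruled)

namespace Pool.Agent.N194.VS

/-- The fibrations of a variety which is uniruled or of general type. -/
theorem viehweg_all {L : Type} [Field L] [Algebra ℂ L] [Algebra.EssFiniteType ℂ L] {n : ℕ}
    (hn : Algebra.trdeg ℂ L = n) (hdich : GeneralType ℂ L n ∨ IsUniruled ℂ L n) :
    Subadditive L n :=
  viehweg Pool.Agent.N169.VS.easy hn hdich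

end Pool.Agent.N194.VS
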