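import Pool.Agent.N496.VS.Fin

/-!
# The potential near the point of the clasp: the point
-/

set_option autoImplicit false

namespace Pool.Agent.N194.VS

open Filter Topology Metric Set
open scoped Real
open Pool.Agent.N561 Pool.Agent.N496.VS
open Pool.Agent.W711.HT (Lg Rc)

/-! ### Arguments -/

theorem arg_quarter {z : ℂ} (h : |z.im| < z.re) : |z.arg| < π / 4 := by
  have hre : 0 < z.re := (abs_nonneg _).trans_lt h
  have h2 : |z.arg| < π / 2 := Complex.abs_arg_lt_pi_div_two_iff.2 (Or.inl hre)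
  by_contra hc
  push Not at hc
  have h3 : Real.cos (2 * |z.arg|) ≤ 0 :=
    Real.cos_nonpos_of_pi_div_two_le_of_le (by linarith) (by linarith)
  have h4 : Real.cos (2 * z.arg) ≤ 0 := by
    rw [← Real.cos_abs, abs_mul, abs_two]
    exact h3
  rw [Real.cos_two_mul] at h4
  have h5 := Complex.norm_mul_cos_arg z
  have h6 : ‖z‖ ^ 2 = z.re ^ 2 + z.im ^ 2 := by
    rw [Complex.sq_norm, Complex.normSq_apply]
    ring
  have h7 : z.im ^ 2 < z.re ^ 2 := by
    rw [← sq_abs z.im]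
    exact pow_lt_pow_left₀ h (abs_nonneg _) two_ne_zero
  have h8 : 2 * z.re ^ 2 - ‖z‖ ^ 2 = ‖z‖ ^ 2 * (2 * Real.cos z.arg ^ 2 - 1) := by
    have : z.re ^ 2 = ‖z‖ ^ 2 * Real.cos z.arg ^ 2 := by
      rw [← mul_pow, h5]
    rw [this]
    ring
  have h9 : ‖z‖ ^ 2 * (2 * Real.cos z.arg ^ 2 - 1) ≤ 0 :=
    mul_nonpos_of_nonneg_of_nonpos (by positivity) h4
  linarith

theorem arg_pos {z : ℂ} (h : 0 < z.im) : 0 < z.arg := by
  have h1 : 0 ≤ z.arg := Complex.arg_nonneg_iff.2 h.le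
  have h2 : z.arg ≠ 0 := by
    intro h0
    rw [Complex.arg_eq_zero_iff] at h0
    exact h.ne' h0.2
  exact lt_of_le_of_ne h1 (Ne.symm h2)

theorem arg_lt_pi {z : ℂ} (h : 0 < z.im) : z.arg < π := by
  have h1 : z.arg ≤ π := Complex.arg_le_pi _
  have h2 : z.arg ≠ π := by
    intro h0
    rw [Complex.arg_eq_pi_iff] at h0
    exact h.ne' h0.2
  exact lt_of_le_of_ne h1 h2

theorem arg_neg {z : ℂ} (h : z.im < 0) : z.arg < 0 := Complex.arg_neg_iff.2 h

/-! ### The square root -/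

/-- `(2 i - 1) ^ (1 / 2)` -/
noncomputable def s0 : ℂ := (2 * Complex.I - 1) ^ (1 / 2 : ℂ)

theorem s0_sq : s0 ^ 2 = 2 * Complex.I - 1 := by
  unfold s0
  rw [← Complex.cpow_nat_mul]
  norm_num

theorem s0_re : 0 < s0.re := by
  have h0 : (2 * Complex.I - 1 : ℂ) ≠ 0 := by
    intro h
    have := congrArg Complex.im h
    simp at this
  have h1 : 0 < (2 * Complex.I - 1 : ℂ).im := by simp
  have h2 := arg_pos h1
  have h3 := arg_lt_pi h1
  have e : s0 = Complex.exp (Complex.log (2 * Complex.I - 1) * (1 / 2 : ℂ)) := by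
    unfold s0
    rw [Complex.cpow_def_of_ne_zero h0]
  rw [e, Complex.exp_re]
  have e2 : (Complex.log (2 * Complex.I - 1) * (1 / 2 : ℂ)).im =
      (2 * Complex.I - 1 : ℂ).arg / 2 := by
    have : (1 / 2 : ℂ) = ((1 / 2 : ℝ) : ℂ) := by push_cast; ring
    rw [this, Complex.im_mul_ofReal, Complex.log_im]
    ring
  rw [e2]
  apply mul_pos (Real.exp_pos _)
  apply Real.cos_pos_of_mem_Ioo
  constructor <;> linarith

theorem s0_eqs : s0.re ^ 2 - s0.im ^ 2 = -1 ∧ s0.re * s0.im = 1 := by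
  have h := s0_sq
  have h1 := congrArg Complex.re h
  have h2 := congrArg Complex.im h
  rw [pow_two] at h1 h2
  simp only [Complex.mul_re, Complex.mul_im, Complex.sub_re, Complex.sub_im, Complex.re_ofNat,
    Complex.im_ofNat, Complex.I_re, Complex.I_im, Complex.one_re, Complex.one_im] at h1 h2
  constructor
  · linarith
  · linarith

theorem s0_bd : 3 / 4 ≤ s0.re ∧ s0.re ≤ 4 / 5 := by
  obtain ⟨h1, h2⟩ := s0_eqs
  have hp := s0_re
  have h3 : s0.re ^ 4 + s0.re ^ 2 = 1 := by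
    have : (s0.re * s0.im) ^ 2 = 1 := by rw [h2]; norm_num
    linear_combination s0.re ^ 2 * h1 + this
  constructor
  · by_contra hc
    push Not at hc
    have h4 : s0.re ^ 2 < (3 / 4) ^ 2 := pow_lt_pow_left₀ hc hp.le two_ne_zero
    have h5 : s0.re ^ 4 < (3 / 4) ^ 4 := pow_lt_pow_left₀ hc hp.le (by norm_num)
    norm_num at h4 h5
    linarith
  · by_contra hc
    push Not at hc
    have h4 : (4 / 5) ^ 2 < s0.re ^ 2 := pow_lt_pow_left₀ hc (by norm_num) two_ne_zero
    have h5 : (4 / 5) ^ 4 < s0.re ^ 4 := pow_lt_pow_left₀ hc (by norm_num) (by norm_num)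
    norm_num at h4 h5
    linarith

theorem s0_im : 5 / 4 ≤ s0.im ∧ s0.im ≤ 4 / 3 := by
  obtain ⟨_, h2⟩ := s0_eqs
  obtain ⟨h3, h4⟩ := s0_bd
  have hp := s0_re
  have hi : 0 < s0.im := by
    by_contra hc
    push Not at hc
    nlinarith
  constructor <;> nlinarith

/-- `exp (i z₀)` -/
noncomputable def w0 : ℂ := -1 - Complex.I + s0

theorem w0_re : w0.re = s0.re - 1 := by
  unfold w0
  simp
  ring

theorem w0_im : w0.im = s0.im - 1 := by
  unfold w0
  simp
  ring

theorem w0_im_pos : 0 < w0.im := by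
  rw [w0_im]
  linarith [s0_im.1]

theorem w0_ne : w0 ≠ 0 := by
  intro h
  have := w0_im_pos
  rw [h] at this
  simp at this

theorem w0_norm : ‖w0‖ ^ 2 * 5 < 1 := by
  rw [Complex.sq_norm, Complex.normSq_apply, w0_re, w0_im]
  obtain ⟨h1, h2⟩ := s0_bd
  obtain ⟨h3, h4⟩ := s0_im
  nlinarith

theorem w0_inv : w0⁻¹ = -1 - Complex.I - s0 := by
  rw [inv_eq_iff_eq_inv, eq_comm, inv_eq_iff_eq_inv, eq_comm]
  apply inv_eq_of_mul_eq_one_right
  unfold w0
  have h := s0_sq
  linear_combination -h + Complex.I_sq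

/-! ### The point -/

/-- the point of the clasp -/
noncomputable def z0 : ℂ := -Complex.I * Complex.log w0

theorem z0_re : z0.re = w0.arg := by
  unfold z0
  simp [Complex.log_im]

theorem z0_im : z0.im = -Real.log ‖w0‖ := by
  unfold z0
  simp [Complex.log_re]

theorem z0_re_pos : 0 < z0.re := by
  rw [z0_re]
  exact arg_pos w0_im_pos

theorem z0_re_lt : z0.re < π := by
  rw [z0_re]
  exact arg_lt_pi w0_im_pos

theorem cos_z0 : Complex.cos z0 = -1 - Complex.I := by
  have e1 : Complex.exp (z0 * Complex.I) = w0 := by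
    unfold z0
    have : -Complex.I * Complex.log w0 * Complex.I = Complex.log w0 := by
      linear_combination -Complex.log w0 * Complex.I_mul_I
    rw [this, Complex.exp_log w0_ne]
  have e2 : Complex.exp (-z0 * Complex.I) = w0⁻¹ := by
    rw [neg_mul, Complex.exp_neg, e1]
  unfold Complex.cos
  rw [e1, e2, w0_inv]
  unfold w0
  ring

theorem half_abs : |(z0 / 2).re| < π / 2 := by
  have e : (z0 / 2).re = z0.re / 2 := by simp
  have h1 := z0_re_pos
  have h2 := z0_re_lt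
  rw [e, abs_of_pos (by linarith)]
  linarith

/-- `cos (z₀ / 2)` -/
theorem cos_half : Complex.cos (z0 / 2) = (1 - Complex.I) / 2 := by
  have h1 := cos_two z0
  rw [cos_z0] at h1
  have h2 := cos_re_pos half_abs
  have h3 : (Complex.cos (z0 / 2) - (1 - Complex.I) / 2) *
      (Complex.cos (z0 / 2) + (1 - Complex.I) / 2) = 0 := by
    linear_combination -h1 / 2 - Complex.I_sq / 4
  rcases mul_eq_zero.1 h3 with h | h
  · exact sub_eq_zero.1 h
  · exfalso
    have h4 : Complex.cos (z0 / 2) = -((1 - Complex.I) / 2) := eq_neg_of_add_eq_zero_left h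
    rw [h4] at h2
    have h5 : (1 - Complex.I) / 2 = ((1 / 2 : ℝ) : ℂ) - ((1 / 2 : ℝ) : ℂ) * Complex.I := by
      push_cast
      ring
    rw [h5] at h2
    simp at h2
    linarith

theorem ww_z0 : ww (0, z0) = (1 - Complex.I) / 2 := by
  rw [ww_zero, cos_half]

theorem u_re : ((1 - Complex.I) / 2).re = 1 / 2 := by
  simp

theorem u_im : ((1 - Complex.I) / 2).im = -(1 / 2) := by
  simp
  norm_num

theorem ww_re : 0 < (ww (0, z0)).re := by
  rw [ww_z0, u_re]
  norm_num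

theorem qz_u : qz ((1 - Complex.I) / 2) = 1 + 2 * Complex.I := by
  unfold qz
  have h : (1 - (1 - Complex.I) / 2 * Complex.I) ≠ 0 := by
    apply den_ne
    rw [u_re]
    norm_num
  rw [div_eq_iff h]
  linear_combination -Complex.I * Complex.I_sq

theorem im_lt0 : |(aa (0, z0)).im| < z0.im / 2 := by
  unfold aa
  rw [ww_z0, at_im, qz_u, z0_im]
  have h1 : ‖(1 + 2 * Complex.I : ℂ)‖ = Real.sqrt 5 := by
    rw [Complex.norm_def, Complex.normSq_apply]
    congr 1
    simp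
    norm_num
  rw [h1]
  have h2 : 1 < Real.sqrt 5 := by
    rw [Real.lt_sqrt (by norm_num)]
    norm_num
  have h3 := Real.log_pos h2
  have hw : 0 < ‖w0‖ := norm_pos_iff.2 w0_ne
  have h4 : Real.log (‖w0‖ * Real.sqrt 5) < 0 := by
    apply Real.log_neg (by positivity)
    have h5 := w0_norm
    have h6 : (‖w0‖ * Real.sqrt 5) ^ 2 < 1 := by
      rw [mul_pow, Real.sq_sqrt (by norm_num)]
      exact h5
    nlinarith [mul_pos hw (by positivity : 0 < Real.sqrt 5)]
  rw [Real.log_mul hw.ne' (by positivity)] at h4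
  rw [abs_div, abs_neg, abs_two, abs_of_pos h3]
  linarith

theorem nice0 : Nice (0, z0) := by
  have e : (aa (0, z0)).re < π / 2 := at_re_lt ww_re
  refine ⟨?_, ww_re, ?_, im_lt0, ?_⟩
  · simp
  · simpa using e
  · have := half_abs
    have e : (z0 / 2).re = z0.re / 2 := by simp
    rw [e, abs_div, abs_two] at this
    exact this

theorem z0_im_pos : 0 < z0.im := by
  have h := im_lt0
  have := abs_nonneg (aa (0, z0)).im
  linarith

/-! ### The signs at the point -/

theorem cos_aa_parts : 0 < (Complex.cos (aa (0, z0))).im ∧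
    (Complex.cos (aa (0, z0))).im < (Complex.cos (aa (0, z0))).re := by
  have hn := nice0
  have h1 : 0 < (Complex.cos (aa (0, z0))).re := at_cos_re hn.wre
  have h2 : Complex.cos (aa (0, z0)) ^ 2 * (1 + ww (0, z0) ^ 2) = 1 := at_cos_sq hn.wre
  rw [ww_z0] at h2
  set c := Complex.cos (aa (0, z0))
  have h3 : c ^ 2 * (2 - Complex.I) = 2 := by
    linear_combination 2 * h2 - (c ^ 2 / 2) * Complex.I_sq
  have h4 := congrArg Complex.re h3
  have h5 := congrArg Complex.im h3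
  rw [pow_two] at h4 h5
  simp only [Complex.mul_re, Complex.mul_im, Complex.sub_re, Complex.sub_im, Complex.re_ofNat,
    Complex.im_ofNat, Complex.I_re, Complex.I_im] at h4 h5
  have h6 : c.re * c.im = 1 / 5 := by nlinarith
  have h7 : c.re ^ 2 - c.im ^ 2 = 4 / 5 := by nlinarith
  have h8 : 0 < c.im := by
    by_contra hc
    push Not at hc
    nlinarith
  refine ⟨h8, ?_⟩
  by_contra hc
  push Not at hc
  nlinarith

theorem sin_aa_parts : (Complex.sin (aa (0, z0))).im < 0 ∧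
    -(Complex.sin (aa (0, z0))).im < (Complex.sin (aa (0, z0))).re := by
  have hn := nice0
  have h1 : Complex.sin (aa (0, z0)) = ww (0, z0) * Complex.cos (aa (0, z0)) := at_sin hn.wre
  obtain ⟨h2, h3⟩ := cos_aa_parts
  rw [h1, ww_z0, Complex.mul_re, Complex.mul_im, u_re, u_im]
  constructor <;> linarith

theorem sh_pos {w : ℂ} (h1 : 0 < w.re) (h2 : w.re < π) (h3 : 0 < w.im) :
    (2 * Complex.cos w).im < 0 := by
  simp only [Complex.mul_im, Complex.re_ofNat, Complex.im_ofNat, zero_mul, add_zero]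
  rw [cos_im]
  have := mul_pos (Real.sin_pos_of_pos_of_lt_pi h1 h2) (Real.sinh_pos_iff.2 h3)
  linarith

theorem plus_im : (2 * Complex.cos (aa (0, z0) + z0 / 2)).im < 0 := by
  have hn := nice0
  have e1 : (aa (0, z0) + z0 / 2).re = (aa (0, z0)).re + z0.re / 2 := by simp
  have e2 : (aa (0, z0) + z0 / 2).im = (aa (0, z0)).im + z0.im / 2 := by simp
  have a1 := hn.re_pos
  have a2 := hn.re_lt
  have a3 := z0_re_pos
  have a4 := z0_re_lt
  have a5 := (abs_lt.1 im_lt0).1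
  apply sh_pos
  · rw [e1]; linarith
  · rw [e1]; linarith
  · rw [e2]; linarith

theorem minus_arg : |(2 * Complex.cos (aa (0, z0) - z0 / 2)).arg| < π / 2 := by
  rw [Complex.abs_arg_lt_pi_div_two_iff]
  left
  have hn := nice0
  have e1 : (aa (0, z0) - z0 / 2).re = (aa (0, z0)).re - z0.re / 2 := by simp
  have a1 := hn.re_pos
  have a2 := hn.re_lt
  have a3 := z0_re_pos
  have a4 := z0_re_lt
  have : |(aa (0, z0) - z0 / 2).re| < π / 2 := by
    rw [e1, abs_lt]
    constructor <;> linarith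
  have h := cos_re_pos this
  simp only [Complex.mul_re, Complex.re_ofNat, Complex.im_ofNat, zero_mul, sub_zero]
  linarith

theorem EE0 : EE (0, z0) = 0 := by
  have hn := nice0
  apply eq_zero_of_exp (EE_exp hn)
  obtain ⟨c1, c2⟩ := cos_aa_parts
  obtain ⟨s1, s2⟩ := sin_aa_parts
  have hpi := Real.pi_pos
  have A1 : 0 < (2 * Complex.cos (aa (0, z0))).arg := by
    apply arg_pos
    simp only [Complex.mul_im, Complex.re_ofNat, Complex.im_ofNat, zero_mul, add_zero]
    linarith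
  have A1' := arg_quarter (z := 2 * Complex.cos (aa (0, z0))) (by
    simp only [Complex.mul_im, Complex.mul_re, Complex.re_ofNat, Complex.im_ofNat, zero_mul,
      add_zero, sub_zero]
    rw [abs_of_pos (by linarith)]
    linarith)
  have A5 : (2 * Complex.sin (aa (0, z0))).arg < 0 := by
    apply arg_neg
    simp only [Complex.mul_im, Complex.re_ofNat, Complex.im_ofNat, zero_mul, add_zero]
    linarith
  have A5' := arg_quarter (z := 2 * Complex.sin (aa (0, z0))) (by
    simp only [Complex.mul_im, Complex.mul_re, Complex.re_ofNat, Complex.im_ofNat, zero_mul,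
      add_zero, sub_zero]
    rw [abs_of_neg (by linarith)]
    linarith)
  have A3 := arg_neg plus_im
  have A3' := Complex.neg_pi_lt_arg (2 * Complex.cos (aa (0, z0) + z0 / 2))
  have A4 := minus_arg
  rw [abs_lt] at A1' A5' A4
  have e : (EE (0, z0)).im = 2 * (2 * Complex.cos (aa (0, z0))).arg +
      (2 * Complex.cos (aa (0, z0) + z0 / 2)).arg +
      (2 * Complex.cos (aa (0, z0) - z0 / 2)).arg - 4 * (2 * Complex.sin (aa (0, z0))).arg := by
    unfold EE
    simp only [zero_div, add_zero, sub_zero]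
    simp only [Complex.add_im, Complex.sub_im, Complex.log_im, Complex.mul_im, Complex.re_ofNat,
      Complex.im_ofNat, zero_mul, add_zero]
    ring
  rw [e, abs_lt]
  constructor <;> linarith

theorem sin_im0 : 0 < (Complex.sin (z0 / 2)).im := by
  rw [sin_im]
  obtain ⟨h1, h2⟩ := abs_lt.1 half_abs
  have h3 : (z0 / 2).im = z0.im / 2 := by simp
  apply mul_pos (Real.cos_pos_of_mem_Ioo ⟨h1, h2⟩)
  rw [h3]
  apply Real.sinh_pos_iff.2
  linarith [z0_im_pos]

theorem ratio_eq : Complex.cos (aa (0, z0) - z0 / 2) / Complex.cos (aa (0, z0) + z0 / 2) =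
    qz (-Complex.I * Complex.sin (z0 / 2)) := by
  have hn := nice0
  have h1 : Complex.sin (aa (0, z0)) = ww (0, z0) * Complex.cos (aa (0, z0)) := at_sin hn.wre
  have hc : Complex.cos (aa (0, z0)) ≠ 0 := cos_aa_ne hn
  have h2 : Complex.cos (z0 / 2) ≠ 0 := by
    intro h0
    have := cos_re_pos half_abs
    rw [h0] at this
    simp at this
  have e1 : Complex.cos (aa (0, z0) - z0 / 2) =
      Complex.cos (aa (0, z0)) * Complex.cos (z0 / 2) * (1 + Complex.sin (z0 / 2)) := by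
    rw [Complex.cos_sub, h1, ww_zero]
    ring
  have e2 : Complex.cos (aa (0, z0) + z0 / 2) =
      Complex.cos (aa (0, z0)) * Complex.cos (z0 / 2) * (1 - Complex.sin (z0 / 2)) := by
    rw [Complex.cos_add, h1, ww_zero]
    ring
  rw [e1, e2, mul_div_mul_left _ _ (mul_ne_zero hc h2)]
  unfold qz
  have e : -Complex.I * Complex.sin (z0 / 2) * Complex.I = Complex.sin (z0 / 2) := by
    linear_combination -Complex.sin (z0 / 2) * Complex.I_mul_I
  rw [e]

theorem ratio_im : 0 < (Complex.cos (aa (0, z0) - z0 / 2) /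
    Complex.cos (aa (0, z0) + z0 / 2)).im := by
  rw [ratio_eq]
  apply qz_im
  have := sin_im0
  simpa using this

theorem D20 : D2 (0, z0) = 0 := by
  have hn := nice0
  apply eq_zero_of_exp (D2_exp hn)
  have hpi := Real.pi_pos
  have A3 := arg_neg plus_im
  have A3' := Complex.neg_pi_lt_arg (2 * Complex.cos (aa (0, z0) + z0 / 2))
  have A4 := minus_arg
  have B := arg_pos ratio_im
  have B' := arg_lt_pi ratio_im
  rw [abs_lt] at A4
  have e : (D2 (0, z0)).im = (2 * Complex.cos (aa (0, z0) + z0 / 2)).arg -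
      (2 * Complex.cos (aa (0, z0) - z0 / 2)).arg +
      (Complex.cos (aa (0, z0) - z0 / 2) / Complex.cos (aa (0, z0) + z0 / 2)).arg := by
    unfold D2
    simp only [Complex.add_im, Complex.sub_im, Complex.log_im]
  rw [e, abs_lt]
  constructor <;> linarith

theorem EE_near0 : ∀ᶠ p in 𝓝 ((0 : ℂ), z0), EE p = 0 := by
  have hn := nice0
  have h1 := (EE_cont hn)
  have h2 : ∀ᶠ p in 𝓝 ((0 : ℂ), z0), ‖EE p‖ < 1 := by
    have h3 : ‖EE (0, z0)‖ < 1 := by
      rw [EE0]
      simp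
    exact h1.norm.eventually (isOpen_Iio.mem_nhds h3)
  filter_upwards [nice_near hn, h2] with p hp hp2
  apply eq_zero_of_exp (EE_exp hp)
  have := Complex.abs_im_le_norm (EE p)
  have := Real.pi_gt_three
  linarith

theorem D2_cont0 : ContinuousAt D2 (0, z0) := by
  have hn := nice0
  have ha := hn.ana.continuousAt
  have h2 : ContinuousAt (fun q : ℂ × ℂ => q.2 / 2) (0, z0) := by
    have : Continuous (fun q : ℂ × ℂ => q.2 / 2) := by fun_prop
    exact this.continuousAt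
  have c1 : ContinuousAt (fun q : ℂ × ℂ => Complex.cos (aa q + q.2 / 2)) (0, z0) :=
    Complex.continuous_cos.continuousAt.comp (ha.add h2)
  have c2 : ContinuousAt (fun q : ℂ × ℂ => Complex.cos (aa q - q.2 / 2)) (0, z0) :=
    Complex.continuous_cos.continuousAt.comp (ha.sub h2)
  have l1 : ContinuousAt (fun q : ℂ × ℂ => Complex.log (2 * Complex.cos (aa q + q.2 / 2)))
      (0, z0) := ContinuousAt.clog (f := fun q : ℂ × ℂ => 2 * Complex.cos (aa q + q.2 / 2))
    (continuousAt_const.mul c1) (DL_slit hn.mem3)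
  have l2 : ContinuousAt (fun q : ℂ × ℂ => Complex.log (2 * Complex.cos (aa q - q.2 / 2)))
      (0, z0) := ContinuousAt.clog (f := fun q : ℂ × ℂ => 2 * Complex.cos (aa q - q.2 / 2))
    (continuousAt_const.mul c2) (DL_slit hn.mem4)
  have n1 : Complex.cos (aa (0, z0) + z0 / 2) ≠ 0 := by
    have := Complex.slitPlane_ne_zero (DL_slit hn.mem3)
    intro h0
    apply this
    simp only [h0, mul_zero]
  have rs : Complex.cos (aa (0, z0) - z0 / 2) / Complex.cos (aa (0, z0) + z0 / 2) ∈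
      Complex.slitPlane := by
    rw [Complex.mem_slitPlane_iff]
    exact Or.inr ratio_im.ne'
  have l3 : ContinuousAt (fun q : ℂ × ℂ => Complex.log (Complex.cos (aa q - q.2 / 2) /
      Complex.cos (aa q + q.2 / 2))) (0, z0) :=
    ContinuousAt.clog (f := fun q : ℂ × ℂ => Complex.cos (aa q - q.2 / 2) /
      Complex.cos (aa q + q.2 / 2)) (c2.div c1 n1) rs
  exact (l1.sub l2).add l3

theorem D2_near0 : ∀ᶠ p in 𝓝 ((0 : ℂ), z0), D2 p = 0 := by
  have hn := nice0
  have h1 := D2_cont0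
  have h2 : ∀ᶠ p in 𝓝 ((0 : ℂ), z0), ‖D2 p‖ < 1 := by
    have h3 : ‖D2 (0, z0)‖ < 1 := by
      rw [D20]
      simp
    exact h1.norm.eventually (isOpen_Iio.mem_nhds h3)
  filter_upwards [nice_near hn, h2] with p hp hp2
  apply eq_zero_of_exp (D2_exp hp)
  have := Complex.abs_im_le_norm (D2 p)
  have := Real.pi_gt_three
  linarith

/-- all the properties at one point -/
structure Pt0 (C : ℝ) (p : ℂ × ℂ) : Prop where
  im : 0 < p.2.im ∧ 0 < p.2.re ∧ p.2.re < π
  nice : Nice p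
  crit : EE p = 0
  d2 : D2 p = 0
  bd : ‖sg p.1 p.2‖ ≤ C

theorem pt_near0 : ∃ C : ℝ, ∀ᶠ p in 𝓝 ((0 : ℂ), z0), Pt0 C p := by
  have hn := nice0
  refine ⟨‖sg 0 z0‖ + 1, ?_⟩
  have e1 : ∀ᶠ p : ℂ × ℂ in 𝓝 ((0 : ℂ), z0), 0 < p.2.im := by
    have : Continuous (fun p : ℂ × ℂ => p.2.im) := by fun_prop
    exact this.continuousAt.eventually (isOpen_Ioi.mem_nhds z0_im_pos)
  have e1' : ∀ᶠ p : ℂ × ℂ in 𝓝 ((0 : ℂ), z0), 0 < p.2.re := by
    have : Continuous (fun p : ℂ × ℂ => p.2.re) := by fun_prop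
    exact this.continuousAt.eventually (isOpen_Ioi.mem_nhds z0_re_pos)
  have e1'' : ∀ᶠ p : ℂ × ℂ in 𝓝 ((0 : ℂ), z0), p.2.re < π := by
    have : Continuous (fun p : ℂ × ℂ => p.2.re) := by fun_prop
    exact (isOpen_lt this continuous_const).mem_nhds z0_re_lt
  have e2 : ∀ᶠ p : ℂ × ℂ in 𝓝 ((0 : ℂ), z0), ‖sg p.1 p.2‖ ≤ ‖sg 0 z0‖ + 1 := by
    have c1 := (sg_an hn).continuousAt.norm
    have : ∀ᶠ p : ℂ × ℂ in 𝓝 ((0 : ℂ), z0), ‖sg p.1 p.2‖ < ‖sg 0 z0‖ + 1 :=
      c1.eventually (isOpen_Iio.mem_nhds (by simp))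
    exact this.mono fun p hp => hp.le
  filter_upwards [e1, e1', e1'', nice_near hn, EE_near0, D2_near0, e2] with p a1 a2 a3 a4 a5 a6 a7
  exact ⟨⟨a1, a2, a3⟩, a4, a5, a6, a7⟩

theorem f_sder1 {C : ℝ} {ψ φ : ℂ} (hP : Pt0 C (ψ, φ)) :
    HasDerivAt (fun z => sg z φ) (-(1 / (2 * π)) * Lg (2 * π * dst ψ φ) ψ) ψ := by
  have h1 := dpsi hP.nice
  have h2 := sg_d1 hP.nice hP.crit
  simp only at h1 h2
  rw [h1] at h2
  refine h2.congr_deriv ?_
  ring

theorem f_sder2 {C : ℝ} {ψ φ : ℂ} (hP : Pt0 C (ψ, φ)) :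
    HasDerivAt (fun z => sg ψ z) (-(1 / (2 * π)) * Lg (2 * π * dst ψ φ) φ) φ := by
  have h2 := sg_d2 hP.nice hP.crit
  have h1 := hP.d2
  unfold D2 at h1
  simp only at h1 h2
  refine h2.congr_deriv ?_
  rw [Lg_eq]
  linear_combination (1 / (2 * (π : ℂ))) * h1

theorem f_crit {C : ℝ} {ψ φ : ℂ} (hP : Pt0 C (ψ, φ)) : HasDerivAt (TH ψ φ) 0 (dst ψ φ) := by
  have h1 := TH_crit hP.nice hP.crit
  simp only at h1
  exact h1

theorem f_san {C : ℝ} {ψ φ : ℂ} (hP : Pt0 C (ψ, φ)) :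
    DifferentiableAt ℂ (fun p : ℂ × ℂ => sg p.1 p.2) (ψ, φ) := (sg_an hP.nice).differentiableAt

theorem f_dan {C : ℝ} {ψ φ : ℂ} (hP : Pt0 C (ψ, φ)) :
    DifferentiableAt ℂ (fun p : ℂ × ℂ => dst p.1 p.2) (ψ, φ) := by
  have h1 : DifferentiableAt ℂ aa (ψ, φ) := hP.nice.ana.differentiableAt
  exact h1.const_mul (1 / π : ℂ)

/-- the radius -/
theorem rad : ∃ r C : ℝ, 0 < r ∧ r ≤ 1 / 10 ∧
    ∀ ψ ∈ Rc r r, ∀ φ ∈ ball z0 r, Pt0 C (ψ, φ) := by
  obtain ⟨C, hev⟩ := pt_near0
  obtain ⟨ε, hε, hball⟩ := Metric.eventually_nhds_iff_ball.1 hev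
  obtain ⟨r, hrpos, hr1, hr2⟩ : ∃ r : ℝ, 0 < r ∧ r ≤ 1 / 10 ∧ r ≤ ε / 2 :=
    ⟨min (1 / 10) (ε / 2), lt_min (by norm_num) (by positivity), min_le_left _ _, min_le_right _ _⟩
  refine ⟨r, C, hrpos, hr1, ?_⟩
  rintro ψ ⟨h1, h2⟩ φ hφ
  apply hball
  rw [← ball_prod_same]
  refine ⟨?_, ?_⟩
  · rw [mem_ball_zero_iff]
    have := Complex.norm_le_abs_re_add_abs_im ψ
    simp only
    linarith
  · rw [mem_ball] at hφ ⊢
    simp only
    linarith

end Pool.Agent.N194.VS
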