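import Pool.Agent.N194.VS.Base
import Pool.Agent.N561.C.Stm

/-!
# The potential near the point of the clasp (job K7)
-/

set_option autoImplicit false

namespace Pool.Agent.N194.VS

open Filter Topology Metric Set
open scoped Real
open Pool.Agent.N561 Pool.Agent.N496.VS
open Pool.Agent.W711.HT (Lg Rc)

theorem zc_zero : zc 0 = z0 := by
  unfold zc z0 w0 s0
  congr 3
  · simp
  · simp

theorem csg : S_CSG := by
  obtain ⟨r, C, hr, hr1, hpt⟩ := rad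
  refine ⟨r, 1, C, ?_⟩
  rw [zc_zero]
  constructor
  · exact ⟨hr, hr1⟩
  · exact one_pos
  · intro φ hφ
    have h0 : (0 : ℂ) ∈ Rc r r := by
      refine ⟨?_, ?_⟩ <;> simp [hr]
    exact (hpt 0 h0 φ hφ).im
  · rintro ⟨ψ, φ⟩ ⟨hψ, hφ⟩
    exact (f_san (hpt ψ hψ φ hφ)).differentiableWithinAt
  · rintro ⟨ψ, φ⟩ ⟨hψ, hφ⟩
    exact (f_dan (hpt ψ hψ φ hφ)).differentiableWithinAt
  · exact fun ψ hψ φ hφ => (hpt ψ hψ φ hφ).bd
  · exact fun ψ _ φ _ => sg_neg ψ φ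
  · exact fun ψ hψ φ hφ => f_dcos (hpt ψ hψ φ hφ).nice
  · exact fun ψ hψ φ hφ => f_dpos (hpt ψ hψ φ hφ).nice
  · exact fun ψ hψ φ hφ => f_crit (hpt ψ hψ φ hφ)
  · exact fun ψ hψ φ hφ => f_sder1 (hpt ψ hψ φ hφ)
  · exact fun ψ hψ φ hφ => f_sder2 (hpt ψ hψ φ hφ)

end Pool.Agent.N194.VS
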