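import Pool.Agent.W602.GT.Defs

/-!
Easy addition: the general fibres of a fibration of a variety of general type are of general type.
-/

set_option autoImplicit false

open FF Pool.Agent.W602.GT

namespace Pool.Agent.N194.VS

/-- The generic fibre of a dominant rational map from a variety of general type is of general type:
`L` is the function field of the variety, `E` the function field of the base. -/
def SEasy : Prop :=
  ∀ (L : Type) [Field L] [Algebra ℂ L] [Algebra.EssFiniteType ℂ L] (n d f : ℕ)
    (E : IntermediateField ℂ L), Algebra.trdeg ℂ E = d → Algebra.trdeg E L = f →
    GeneralType ℂ L n → GeneralType E L f

end Pool.Agent.N194.VS
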