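import Pool.Agent.R882.UC
import Pool.Agent.N136.IS.FG
import Pool.Agent.N194.VS.Stm

/-!
Viehweg's inequality for the fibrations whose total space is uniruled or of general type.
-/

set_option autoImplicit false
set_option linter.overlappingInstances false
set_option linter.unusedSectionVars false

open FF Pool.Agent.W602.GT
open Pool.Agent.W619.PQ (IsUniruled)

namespace Pool.Agent.N194.VS

/-- The Kodaira dimension of the smooth projective varieties of dimension `n` over `k` with the
function field `K` is at least `h`. -/
def KappaGe (k K : Type) [Field k] [Field K] [Algebra k K] (n h : ℕ) : Prop :=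
  KodGe k K n (fun _ => False) h

/-- The canonical divisor of the smooth projective varieties of dimension `n` over `k` with the
function field `K` is pseudo-effective. -/
def IsPseudoEffective (k K : Type) [Field k] [Field K] [Algebra k K] (n : ℕ) : Prop :=
  Psef k K n (fun _ => False)

/-- Viehweg's inequality, in a strong form, for **all** the fibrations of a variety `X` of dimension
`n` over `ℂ` with the function field `L`. Let `X ⇢ Y` be any dominant rational map, given by the
function field `E` of `Y`, a subfield of `L`, let `F` be its generic fibre, with function field `L`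
over `E`, let `d = dim Y`, `f = dim F`, and let `κ(Y) ≥ 0`. If `K_F` is pseudo-effective then `X` and
`F` are of general type, and in all cases `κ(X) ≥ κ(F) + dim Y`: if `κ(F) ≥ q` then
`κ(X) ≥ q + d`. -/
def Subadditive (L : Type) [Field L] [Algebra ℂ L] (n : ℕ) : Prop :=
  ∀ (E : IntermediateField ℂ L) (d f : ℕ), Algebra.trdeg ℂ E = d → Algebra.trdeg E L = f →
    KappaGe ℂ E d 0 →
    (IsPseudoEffective E L f → GeneralType ℂ L n ∧ GeneralType E L f) ∧
      ∀ q : ℕ, KappaGe E L f q → KappaGe ℂ L n (q + d)

/-- the Kodaira dimension of a variety of general type -/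
theorem kappa_of_general {k K : Type} [Field k] [Field K] [Algebra k K] {w : ℕ}
    (h : GeneralType k K w) : KappaGe k K w w := by
  obtain ⟨-, N, hN, ω, h1, h2, D, hD, h3⟩ := h
  refine ⟨N, hN, ω, fun j => ⟨h1 j, fun P hP => ?_, fun P hP _ => h2 P hP j⟩, D, hD, h3⟩
  intro D' hDP
  refine h2 P hP j D' fun i f hf => ?_
  by_cases h0 : f = 0
  · rw [h0, map_zero]
    exact P.reg_zero
  · have h4 := P.reg_mul (hDP i f) hf
    rwa [div_mul_cancel₀ _ h0] at h4

/-- The fibrations of a variety which is uniruled or of general type. -/
theorem viehweg (hE : SEasy) {L : Type} [Field L] [Algebra ℂ L] [Algebra.EssFiniteType ℂ L]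
    {n : ℕ} (hn : Algebra.trdeg ℂ L = n) (hdich : GeneralType ℂ L n ∨ IsUniruled ℂ L n) :
    Subadditive L n := by
  intro E d f hd hf hY
  have hessE : Algebra.EssFiniteType ℂ E :=
    IntermediateField.essFiniteType_iff.2 (Pool.Agent.N136.IS.fg_sub E)
  have hdf : d + f = n := by
    have h3 := trdeg_add_eq ℂ E (A := L)
    rw [hd, hf, hn] at h3
    exact_mod_cast h3
  have hkey : IsPseudoEffective E L f → GeneralType ℂ L n := fun h4 =>
    hdich.resolve_right fun h5 => Pool.Agent.R882.UA.fib_not hn h5 E hd hf hY h4
  refine ⟨fun h => ⟨hkey h, hE L n d f E hd hf (hkey h)⟩, fun q h4 => ?_⟩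
  have h4' : IsPseudoEffective E L f :=
    psef_of_kodGe (Pool.Agent.R882.UA.kod_mono h4 (Nat.zero_le _))
  have hq : q ≤ f := Pool.Agent.R882.UA.kod_le_dim hf h4
  exact Pool.Agent.R882.UA.kod_mono (kappa_of_general (hkey h4')) (by omega)

end Pool.Agent.N194.VS
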